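import Pool.Agent.P.MP_881548_lc.Member

/-- Geometric partial planarity is complete for the existential theory of the reals. -/
theorem Pool.Agent.Results.MP_881548_lc.ERComplete.result :
    N793a5b8e.IsCompleteFor Pool.Agent.Lib.ETR.ExistsR Pool.Agent.P.MP_881548_lc.GPP :=
  ⟨Pool.Agent.P.MP_881548_lc.gpp_mem, Pool.Agent.P.MP_881548_lc.gpp_hard⟩
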